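import Pool.Agent.Helper22.FF.Abs

set_option autoImplicit false

/-! Module FFS: the fixed field of the stabilizer of `S` is `k(S)`. -/

namespace Pool.Agent.Helper22.FF

open Pool.Agent.Helper14.BSC Polynomial Pool.Agent.Helper60.FF Pool.Agent.Helper18.FF3

theorem ffs_stab {k Ω : Type} [Field k] [Field Ω] [Algebra k Ω] (S : Set (Acl k Ω)) (g : GG k Ω) :
    g ∈ Stab S ↔ g ∈ (IntermediateField.adjoin k S).fixingSubgroup := by
  rw [IntermediateField.mem_fixingSubgroup_iff]
  constructor
  · intro hg y hy
    refine IntermediateField.adjoin_induction (F := k) (p := fun y _ => g y = y) (fun y hy => hg y hy)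
      (fun y => g.commutes y) ?_ ?_ ?_ hy
    · intro a b _ _ ha hb
      rw [map_add, ha, hb]
    · intro a _ ha
      rw [map_inv₀, ha]
    · intro a b _ _ ha hb
      rw [map_mul, ha, hb]
  · intro h a ha
    exact h a (IntermediateField.subset_adjoin k S ha)

theorem st_FFS : ST_FFS := by
  intro k Ω _ _ _ _ _ S x
  have : IsGalois k (Acl k Ω) := IsAlgClosure.isGalois k (Acl k Ω)
  have h1 : x ∈ FF S ↔ x ∈ IntermediateField.adjoin k S := by
    rw [← InfiniteGalois.fixedField_fixingSubgroup (IntermediateField.adjoin k S),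
      IntermediateField.mem_fixedField_iff]
    constructor
    · intro h g hg
      exact h g ((ffs_stab S g).2 hg)
    · intro h g hg
      exact h g ((ffs_stab S g).1 hg)
  rw [h1]
  have h2 : (IntermediateField.adjoin k S).map (Acl k Ω).val
      = IntermediateField.adjoin k ((fun a : Acl k Ω => (a : Ω)) '' S) :=
    IntermediateField.adjoin_map k S (Acl k Ω).val
  rw [← h2]
  constructor
  · intro h
    exact ⟨x, h, rfl⟩
  · rintro ⟨y, hy, hxy⟩
    have : y = x := Subtype.ext hxy
    rwa [this] at hy

end Pool.Agent.Helper22.FF
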